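import Mathlib
import Pool.Agent.Lib_helper85.NCGood

/-! Area-disjoint partitions of points into triples (MP_a813b7_co): areas, partitions, existence. -/

set_option autoImplicit false

namespace Pool.Agent.Lib_helper35.INS

open MeasureTheory Set
open scoped ENNReal

open Pool.Agent.Lib_helper85.Crossing

/-- the open standard triangle has area `1/2` -/
theorem std_area : volume (regionBetween (fun _ : ℝ => (0 : ℝ)) (fun x => 1 - x) (Ioc 0 1)) =
    ENNReal.ofReal (1 / 2) := by
  have h := volume_regionBetween_eq_integral (μ := (volume : Measure ℝ)) (f := fun _ => (0 : ℝ))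
    (g := fun x => 1 - x) (s := Ioc 0 1)
    (continuous_const.integrableOn_Ioc) ((continuous_const.sub continuous_id).integrableOn_Ioc)
    measurableSet_Ioc (fun x hx => by linarith [hx.2])
  rw [show (volume : Measure (ℝ × ℝ)) = (volume : Measure ℝ).prod volume from rfl, h]
  congr 1
  have h2 : ∫ y in Ioc (0 : ℝ) 1, ((fun x : ℝ => 1 - x) - (fun _ : ℝ => (0 : ℝ)) : ℝ → ℝ) y =
      ∫ y in (0 : ℝ)..1, (1 - y) := by
    rw [intervalIntegral.integral_of_le zero_le_one]
    apply integral_congr_ae
    filter_upwards with y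
    simp
  rw [h2]
  rw [intervalIntegral.integral_sub (by simp) (by simp)]
  simp
  norm_num

/-- the area of a triangle is at least the value of the determinant formula -/
theorem tri_area (p q r : ℝ × ℝ) : ENNReal.ofReal (|det3 p q r| / 2) ≤
    volume (convexHull ℝ ({p, q, r} : Set (ℝ × ℝ))) := by
  set f : ℝ × ℝ →ₗ[ℝ] ℝ × ℝ := Matrix.toLin (Module.Basis.finTwoProd ℝ) (Module.Basis.finTwoProd ℝ)
    !![q.1 - p.1, r.1 - p.1; q.2 - p.2, r.2 - p.2] with hf
  have hdet : LinearMap.det f = det3 p q r := by
    rw [hf, LinearMap.det_toLin, Matrix.det_fin_two_of]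
    unfold det3
    ring
  have hfx : ∀ z : ℝ × ℝ, f z = z.1 • (q - p) + z.2 • (r - p) := by
    intro z
    rw [hf, Matrix.toLin_finTwoProd_apply]
    ext
    · simp only [Prod.fst_add, Prod.smul_fst, Prod.fst_sub, smul_eq_mul]
      ring
    · simp only [Prod.snd_add, Prod.smul_snd, Prod.snd_sub, smul_eq_mul]
      ring
  have hsub : (fun z => p + z) '' (f '' regionBetween (fun _ : ℝ => (0 : ℝ)) (fun x => 1 - x)
      (Ioc 0 1)) ⊆ convexHull ℝ ({p, q, r} : Set (ℝ × ℝ)) := by
    rintro _ ⟨_, ⟨z, hz, rfl⟩, rfl⟩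
    obtain ⟨h1, h2⟩ := hz
    simp only [mem_Ioc, mem_Ioo] at h1 h2
    have hc := convex_convexHull ℝ ({p, q, r} : Set (ℝ × ℝ))
    have hp : p ∈ convexHull ℝ ({p, q, r} : Set (ℝ × ℝ)) := subset_convexHull _ _ (by simp)
    have hq : q ∈ convexHull ℝ ({p, q, r} : Set (ℝ × ℝ)) := subset_convexHull _ _ (by simp)
    have hr : r ∈ convexHull ℝ ({p, q, r} : Set (ℝ × ℝ)) := subset_convexHull _ _ (by simp)
    have h3 : (1 - z.1 - z.2) • p + z.1 • q + z.2 • r ∈ convexHull ℝ ({p, q, r} : Set (ℝ × ℝ)) := by
      have := hc.sum_mem (t := Finset.univ) (w := ![1 - z.1 - z.2, z.1, z.2]) (z := ![p, q, r])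
        (by
          intro i _
          fin_cases i
          · simp; linarith [h2.2]
          · simp; linarith [h1.1]
          · simp; linarith [h2.1])
        (by rw [Fin.sum_univ_three]; simp; ring)
        (by
          intro i _
          fin_cases i
          · exact hp
          · exact hq
          · exact hr)
      rw [Fin.sum_univ_three] at this
      exact this
    have h4 : p + f z = (1 - z.1 - z.2) • p + z.1 • q + z.2 • r := by
      rw [hfx]
      module
    show p + f z ∈ _
    rw [h4]
    exact h3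
  calc ENNReal.ofReal (|det3 p q r| / 2)
      = ENNReal.ofReal |LinearMap.det f| * ENNReal.ofReal (1 / 2) := by
        rw [hdet, ← ENNReal.ofReal_mul (abs_nonneg _)]
        congr 1
        ring
    _ = volume (f '' regionBetween (fun _ : ℝ => (0 : ℝ)) (fun x => 1 - x) (Ioc 0 1)) := by
        rw [Measure.addHaar_image_linearMap, std_area]
    _ = volume ((fun z => p + z) '' (f '' regionBetween (fun _ : ℝ => (0 : ℝ)) (fun x => 1 - x)
          (Ioc 0 1))) := by
        rw [image_add_left, measure_preimage_add]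
    _ ≤ _ := measure_mono hsub

end Pool.Agent.Lib_helper35.INS
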