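import Mathlib
import Pool.Agent.Lib_helper85.NCGood

/-! Area-disjoint partitions of points into triples (MP_a813b7_co): the lower bound for the good
configuration (from the file of helper85 for the frozen statement). -/

set_option autoImplicit false

namespace Pool.Agent.Lib_helper35.INS

open Pool.Agent.Lib_helper85.Crossing

theorem sort3 {ι : Type*} [LinearOrder ι] (P : ι → ℝ × ℝ) {k0 k1 k2 : ι} (h01 : k0 ≠ k1)
    (h02 : k0 ≠ k2) (h12 : k1 ≠ k2) :
    ∃ a b c : ι, a < b ∧ b < c ∧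
      ({P a, P b, P c} : Set (ℝ × ℝ)) = {P k0, P k1, P k2} ∧
      |det3 (P a) (P b) (P c)| = |det3 (P k0) (P k1) (P k2)| ∧
      (a = k0 ∨ a = k1 ∨ a = k2) ∧ (b = k0 ∨ b = k1 ∨ b = k2) ∧ (c = k0 ∨ c = k1 ∨ c = k2) := by
  rcases lt_or_gt_of_ne h01 with h | h
  · rcases lt_or_gt_of_ne h12 with h' | h'
    · exact ⟨k0, k1, k2, h, h', rfl, rfl, by simp, by simp, by simp⟩
    · rcases lt_or_gt_of_ne h02 with h'' | h''
      · refine ⟨k0, k2, k1, h'', h', ?_, ?_, by simp, by simp, by simp⟩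
        · ext z; simp only [Set.mem_insert_iff, Set.mem_singleton_iff]; tauto
        · rw [show det3 (P k0) (P k2) (P k1) = -det3 (P k0) (P k1) (P k2) by unfold det3; ring,
            abs_neg]
      · refine ⟨k2, k0, k1, h'', h, ?_, ?_, by simp, by simp, by simp⟩
        · ext z; simp only [Set.mem_insert_iff, Set.mem_singleton_iff]; tauto
        · rw [show det3 (P k2) (P k0) (P k1) = det3 (P k0) (P k1) (P k2) by unfold det3; ring]
  · rcases lt_or_gt_of_ne h12 with h' | h'
    · rcases lt_or_gt_of_ne h02 with h'' | h''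
      · refine ⟨k1, k0, k2, h, h'', ?_, ?_, by simp, by simp, by simp⟩
        · ext z; simp only [Set.mem_insert_iff, Set.mem_singleton_iff]; tauto
        · rw [show det3 (P k1) (P k0) (P k2) = -det3 (P k0) (P k1) (P k2) by unfold det3; ring,
            abs_neg]
      · refine ⟨k1, k2, k0, h', h'', ?_, ?_, by simp, by simp, by simp⟩
        · ext z; simp only [Set.mem_insert_iff, Set.mem_singleton_iff]; tauto
        · rw [show det3 (P k1) (P k2) (P k0) = det3 (P k0) (P k1) (P k2) by unfold det3; ring]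
    · refine ⟨k2, k1, k0, h', h, ?_, ?_, by simp, by simp, by simp⟩
      · ext z; simp only [Set.mem_insert_iff, Set.mem_singleton_iff]; tauto
      · rw [show det3 (P k2) (P k1) (P k0) = -det3 (P k0) (P k1) (P k2) by unfold det3; ring,
          abs_neg]

/-- for the good configuration, every area-disjoint partition has total area at least
`1/(384 * 2^44)` -/
theorem key (n : ℕ) (hn : 1 ≤ n) (y : Fin (3 * n) → ℝ) (hgp : GP (xx (3 * n)) y)
    (hPhi : Phi (384 * 2 ^ 44 * n) (3 * n) n y ≤ ENNReal.ofReal ((1 / 4) ^ n))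
    (σ : Fin (3 * n) ≃ Fin n × Fin 3)
    (hdis : ∀ i j : Fin n, i ≠ j →
      Disjoint
        (interior (convexHull ℝ
          ({(xx (3 * n) (σ.symm (i, 0)), y (σ.symm (i, 0))),
            (xx (3 * n) (σ.symm (i, 1)), y (σ.symm (i, 1))),
            (xx (3 * n) (σ.symm (i, 2)), y (σ.symm (i, 2)))} : Set (ℝ × ℝ))))
        (interior (convexHull ℝ
          ({(xx (3 * n) (σ.symm (j, 0)), y (σ.symm (j, 0))),
            (xx (3 * n) (σ.symm (j, 1)), y (σ.symm (j, 1))),
            (xx (3 * n) (σ.symm (j, 2)), y (σ.symm (j, 2)))} : Set (ℝ × ℝ))))) :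
    1 / (384 * 2 ^ 44) ≤ ∑ i : Fin n,
      |det3 (xx (3 * n) (σ.symm (i, 0)), y (σ.symm (i, 0)))
        (xx (3 * n) (σ.symm (i, 1)), y (σ.symm (i, 1)))
        (xx (3 * n) (σ.symm (i, 2)), y (σ.symm (i, 2)))| / 2 := by
  classical
  by_contra hlt
  rw [not_le] at hlt
  have hx := xx_strictMono (3 * n)
  set x := xx (3 * n) with hxdef
  have hn' : (0 : ℝ) < n := by exact_mod_cast hn
  have hsort : ∀ i : Fin n, ∃ a b c : Fin (3 * n), a < b ∧ b < c ∧
      ({(x a, y a), (x b, y b), (x c, y c)} : Set (ℝ × ℝ)) =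
        {(x (σ.symm (i, 0)), y (σ.symm (i, 0))), (x (σ.symm (i, 1)), y (σ.symm (i, 1))),
          (x (σ.symm (i, 2)), y (σ.symm (i, 2)))} ∧
      |det3 (x a, y a) (x b, y b) (x c, y c)| =
        |det3 (x (σ.symm (i, 0)), y (σ.symm (i, 0))) (x (σ.symm (i, 1)), y (σ.symm (i, 1)))
          (x (σ.symm (i, 2)), y (σ.symm (i, 2)))| ∧
      (a = σ.symm (i, 0) ∨ a = σ.symm (i, 1) ∨ a = σ.symm (i, 2)) ∧
      (b = σ.symm (i, 0) ∨ b = σ.symm (i, 1) ∨ b = σ.symm (i, 2)) ∧
      (c = σ.symm (i, 0) ∨ c = σ.symm (i, 1) ∨ c = σ.symm (i, 2)) := by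
    intro i
    refine sort3 (fun k => (x k, y k)) ?_ ?_ ?_
    · intro e
      have := σ.symm.injective e
      simp at this
    · intro e
      have := σ.symm.injective e
      simp at this
    · intro e
      have := σ.symm.injective e
      simp at this
  choose a b c hab hbc hset hdet ha hb hc using hsort
  have ha' : ∀ i, (σ (a i)).1 = i := by
    intro i
    rcases ha i with e | e | e <;> rw [e] <;> simp
  have hb' : ∀ i, (σ (b i)).1 = i := by
    intro i
    rcases hb i with e | e | e <;> rw [e] <;> simp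
  have hc' : ∀ i, (σ (c i)).1 = i := by
    intro i
    rcases hc i with e | e | e <;> rw [e] <;> simp
  have naa : ∀ i j, i ≠ j → a i ≠ a j := fun i j hij e => hij (by rw [← ha' i, e, ha' j])
  have nac : ∀ i j, i ≠ j → a i ≠ c j := fun i j hij e => hij (by rw [← ha' i, e, hc' j])
  have nca : ∀ i j, i ≠ j → c i ≠ a j := fun i j hij e => hij (by rw [← hc' i, e, ha' j])
  have ncc : ∀ i j, i ≠ j → c i ≠ c j := fun i j hij e => hij (by rw [← hc' i, e, hc' j])
  have nbb : ∀ i j, i ≠ j → b i ≠ b j := fun i j hij e => hij (by rw [← hb' i, e, hb' j])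
  have nba : ∀ i j, i ≠ j → b i ≠ a j := fun i j hij e => hij (by rw [← hb' i, e, ha' j])
  have nbc : ∀ i j, i ≠ j → b i ≠ c j := fun i j hij e => hij (by rw [← hb' i, e, hc' j])
  set g : Fin n → Fin (3 * n) × Fin (3 * n) := fun i => (a i, c i) with hg
  have hginj : Function.Injective g := by
    intro i j hij
    by_contra hne
    exact naa i j hne (congrArg Prod.fst hij)
  set M : Finset (Fin (3 * n) × Fin (3 * n)) := Finset.univ.image g with hMdef
  have hmemM : ∀ s, s ∈ M ↔ ∃ i, g i = s := by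
    intro s
    rw [hMdef, Finset.mem_image]
    simp
  have hMcard : M.card = n := by
    rw [hMdef, Finset.card_image_of_injective _ hginj, Finset.card_univ, Fintype.card_fin]
  have hAdm : Adm M := by
    constructor
    · intro s hs
      obtain ⟨i, rfl⟩ := (hmemM s).mp hs
      exact (hab i).trans (hbc i)
    · intro s hs t ht hst
      obtain ⟨i, rfl⟩ := (hmemM s).mp hs
      obtain ⟨j, rfl⟩ := (hmemM t).mp ht
      have hij : i ≠ j := fun e => hst (by rw [e])
      exact ⟨naa i j hij, nac i j hij, nca i j hij, ncc i j hij⟩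
  have hMAll : M ∈ AllM (Fin (3 * n)) n := mem_AllM.mpr ⟨hMcard, hAdm⟩
  set F : Fin (3 * n) × Fin (3 * n) → Fin (3 * n) := Function.extend g b Prod.fst with hF
  have hFv : ∀ i, F (g i) = b i := fun i => by rw [hF, hginj.extend_apply]
  have hends : ∀ r ∈ ends M, ∃ j, r = a j ∨ r = c j := by
    intro r hr
    unfold ends at hr
    rw [Finset.mem_union, Finset.mem_image, Finset.mem_image] at hr
    rcases hr with ⟨s, hs, rfl⟩ | ⟨s, hs, rfl⟩
    · obtain ⟨i, rfl⟩ := (hmemM s).mp hs
      exact ⟨i, Or.inl rfl⟩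
    · obtain ⟨i, rfl⟩ := (hmemM s).mp hs
      exact ⟨i, Or.inr rfl⟩
  have hFs : F ∈ Fs M := by
    rw [mem_Fs]
    refine ⟨fun s => ?_, ?_, ?_⟩
    · by_cases hs : s ∈ M
      · rw [if_pos hs]
        obtain ⟨i, rfl⟩ := (hmemM s).mp hs
        rw [hFv, Finset.mem_Ioo]
        exact ⟨hab i, hbc i⟩
      · rw [if_neg hs, Finset.mem_singleton, hF]
        exact Function.extend_apply' _ _ _ (fun h => hs ((hmemM s).mpr h))
    · intro s hs t ht hst
      obtain ⟨i, rfl⟩ := (hmemM s).mp hs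
      obtain ⟨j, rfl⟩ := (hmemM t).mp ht
      rw [hFv, hFv] at hst
      by_contra hne
      exact nbb i j (fun e => hne (by rw [e])) hst
    · intro s hs hmem
      obtain ⟨i, rfl⟩ := (hmemM s).mp hs
      rw [hFv] at hmem
      obtain ⟨j, hj⟩ := hends _ hmem
      by_cases hij : i = j
      · subst hij
        rcases hj with hj | hj
        · exact (hab i).ne' hj
        · exact (hbc i).ne hj
      · rcases hj with hj | hj
        · exact nba i j hij hj
        · exact nbc i j hij hj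
  have hNC : IsNC x y (ends M) M := by
    refine ⟨fun s hs => ⟨fst_mem_ends hs, snd_mem_ends hs, hAdm.1 s hs⟩, hAdm.2, ?_, ?_⟩
    · intro s hs t ht hst
      obtain ⟨i, rfl⟩ := (hmemM s).mp hs
      obtain ⟨j, rfl⟩ := (hmemM t).mp ht
      have hij : i ≠ j := fun e => hst (by rw [e])
      have hd := hdis i j hij
      rw [← hset i, ← hset j] at hd
      exact nc_of_disjoint hx hgp (hab i) (hbc i) (hab j) (hbc j) (naa i j hij) (nac i j hij)
        (nca i j hij) (ncc i j hij) hd
    · intro s hs r _ h1 h2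
      exact hgp s.1 r s.2 h1 h2
  -- the term of the partition function
  have hterm : Hf x M y * ∏ s ∈ M, wt (384 * 2 ^ 44 * n) x s (F s) y ≤
      Phi (384 * 2 ^ 44 * n) (3 * n) n y := term_le_Phi _ y hMAll hFs
  have hH : Hf x M y = 1 := by
    unfold Hf
    rw [if_pos hNC]
  have hprod : ∏ s ∈ M, wt (384 * 2 ^ 44 * n) x s (F s) y =
      ENNReal.ofReal (Real.exp (-(384 * 2 ^ 44 * n * ∑ i : Fin n,
        |det3 (x (σ.symm (i, 0)), y (σ.symm (i, 0)))
          (x (σ.symm (i, 1)), y (σ.symm (i, 1)))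
          (x (σ.symm (i, 2)), y (σ.symm (i, 2)))| / 2))) := by
    rw [hMdef, Finset.prod_image (fun i _ j _ h => hginj h), Finset.mul_sum,
      ← Finset.sum_neg_distrib, Real.exp_sum, ENNReal.ofReal_prod_of_nonneg
        (fun i _ => (Real.exp_pos _).le)]
    refine Finset.prod_congr rfl fun i _ => ?_
    rw [hFv]
    unfold wt
    rw [← hdet i, det3_eq hx y ((hab i).trans (hbc i)), abs_mul,
      abs_of_pos (sub_pos.mpr (hx ((hab i).trans (hbc i)))), abs_sub_comm]
    congr 3
    simp only [hg]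
    ring
  rw [hH, one_mul, hprod] at hterm
  have h1 := hterm.trans hPhi
  rw [ENNReal.ofReal_le_ofReal_iff (by positivity)] at h1
  have h2 : (384 * 2 ^ 44 * n * ∑ i : Fin n,
        |det3 (x (σ.symm (i, 0)), y (σ.symm (i, 0)))
          (x (σ.symm (i, 1)), y (σ.symm (i, 1)))
          (x (σ.symm (i, 2)), y (σ.symm (i, 2)))| / 2) < n := by
    have h3 := mul_lt_mul_of_pos_left hlt (show (0 : ℝ) < 384 * 2 ^ 44 * n by positivity)
    refine h3.trans_le (le_of_eq ?_)
    field_simp
  have h4 : Real.exp (-(n : ℝ)) < Real.exp (-(384 * 2 ^ 44 * n * ∑ i : Fin n,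
        |det3 (x (σ.symm (i, 0)), y (σ.symm (i, 0)))
          (x (σ.symm (i, 1)), y (σ.symm (i, 1)))
          (x (σ.symm (i, 2)), y (σ.symm (i, 2)))| / 2)) :=
    Real.exp_lt_exp.mpr (by linarith)
  have h5 : Real.exp (-(n : ℝ)) < (1 / 4) ^ n := h4.trans_le h1
  have h6 : ((1 : ℝ) / 4) ^ n ≤ Real.exp (-(n : ℝ)) := by
    have h7 : Real.exp (-(n : ℝ)) = (Real.exp (-1)) ^ n := by
      rw [← Real.exp_nat_mul]
      congr 1
      ring
    rw [h7]
    apply pow_le_pow_left₀ (by norm_num)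
    rw [Real.exp_neg, one_div]
    apply inv_anti₀ (Real.exp_pos 1)
    have := Real.exp_one_lt_d9
    linarith
  exact absurd h5 (not_lt.mpr h6)


end Pool.Agent.Lib_helper35.INS
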