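import Mathlib

/-! Area-disjoint partitions of points into triples (MP_a813b7_co): partitions. -/

set_option autoImplicit false

namespace Pool.Agent.Lib_helper35.INS

open Set

/-- `T` is a partition of `P` into three-element sets -/
def IsTriples (P : Finset (ℝ × ℝ)) (C : Finset (Finset (ℝ × ℝ))) : Prop :=
  (∀ T ∈ C, T.card = 3) ∧ (∀ T ∈ C, ∀ T' ∈ C, T ≠ T' → Disjoint T T') ∧
    ∀ x, x ∈ P ↔ ∃ T ∈ C, x ∈ T

/-- the interiors of the triangles are pairwise disjoint -/
def IsAreaDisjoint (C : Finset (Finset (ℝ × ℝ))) : Prop :=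
  ∀ T ∈ C, ∀ T' ∈ C, T ≠ T' → Disjoint (interior (convexHull ℝ (T : Set (ℝ × ℝ))))
    (interior (convexHull ℝ (T' : Set (ℝ × ℝ))))

theorem interior_right (c : ℝ) (S : Set (ℝ × ℝ)) (h : ∀ z ∈ S, z.1 ≤ c) :
    ∀ z ∈ interior (convexHull ℝ S), z.1 < c := by
  intro z hz
  have h1 : convexHull ℝ S ⊆ Prod.fst ⁻¹' (Iic c) := by
    apply convexHull_min h
    exact (convex_Iic c).linear_preimage (LinearMap.fst ℝ ℝ ℝ)
  have h2 : z ∈ interior (Prod.fst ⁻¹' (Iic c) : Set (ℝ × ℝ)) := interior_mono h1 hz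
  rw [← isOpenMap_fst.preimage_interior_eq_interior_preimage continuous_fst, interior_Iic] at h2
  exact h2

theorem interior_left (c : ℝ) (S : Set (ℝ × ℝ)) (h : ∀ z ∈ S, c ≤ z.1) :
    ∀ z ∈ interior (convexHull ℝ S), c < z.1 := by
  intro z hz
  have h1 : convexHull ℝ S ⊆ Prod.fst ⁻¹' (Ici c) := by
    apply convexHull_min h
    exact (convex_Ici c).linear_preimage (LinearMap.fst ℝ ℝ ℝ)
  have h2 : z ∈ interior (Prod.fst ⁻¹' (Ici c) : Set (ℝ × ℝ)) := interior_mono h1 hz
  rw [← isOpenMap_fst.preimage_interior_eq_interior_preimage continuous_fst, interior_Ici] at h2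
  exact h2

/-- an enumeration with monotone first coordinates -/
theorem exists_enum {N : ℕ} {P : Finset (ℝ × ℝ)} (hP : P.card = N) :
    ∃ p : Fin N → ℝ × ℝ, Function.Injective p ∧ (∀ x, x ∈ P ↔ ∃ k, p k = x) ∧
      ∀ k l, k ≤ l → (p k).1 ≤ (p l).1 := by
  classical
  obtain ⟨P', hP'⟩ : ∃ P' : Finset (ℝ ×ₗ ℝ), P' = P.map (toLex : ℝ × ℝ ≃ ℝ ×ₗ ℝ).toEmbedding :=
    ⟨_, rfl⟩
  have hc : P'.card = N := by rw [hP', Finset.card_map, hP]
  have hm : ∀ x : ℝ × ℝ, toLex x ∈ P' ↔ x ∈ P := by
    intro x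
    rw [hP', Finset.mem_map]
    constructor
    · rintro ⟨y, hy, hy'⟩
      have h2 : y = x := toLex.injective hy'
      rw [← h2]
      exact hy
    · intro hx
      exact ⟨x, hx, rfl⟩
  refine ⟨fun k => ofLex (P'.orderEmbOfFin hc k), ?_, ?_, ?_⟩
  · intro k l h
    exact (P'.orderEmbOfFin hc).injective (ofLex.injective h)
  · intro x
    constructor
    · intro hx
      have h2 : toLex x ∈ Set.range (P'.orderEmbOfFin hc) := by
        rw [Finset.range_orderEmbOfFin]
        exact (hm x).2 hx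
      obtain ⟨k, hk⟩ := h2
      refine ⟨k, ?_⟩
      show ofLex (P'.orderEmbOfFin hc k) = x
      rw [hk]
      rfl
    · rintro ⟨k, rfl⟩
      exact (hm _).1 (Finset.orderEmbOfFin_mem P' hc k)
  · intro k l hkl
    have h1 : P'.orderEmbOfFin hc k ≤ P'.orderEmbOfFin hc l := (P'.orderEmbOfFin hc).monotone hkl
    rw [Prod.Lex.le_iff] at h1
    rcases h1 with h1 | h1
    · exact h1.le
    · exact h1.1.le

/-- every set of `3n` points has an area-disjoint partition into triples -/
theorem exists_partition {n : ℕ} {P : Finset (ℝ × ℝ)} (hP : P.card = 3 * n) :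
    ∃ C, IsTriples P C ∧ IsAreaDisjoint C := by
  classical
  obtain ⟨p, hinj, hmem, hmono⟩ := exists_enum hP
  have hlt : ∀ (i : Fin n) (j : ℕ), j < 3 → 3 * (i : ℕ) + j < 3 * n := by
    intro i j hj
    have := i.isLt
    omega
  set q : Fin n → ℕ → ℝ × ℝ := fun i j => if h : j < 3 then p ⟨3 * i + j, hlt i j h⟩ else 0 with hq
  have q_eq : ∀ (i : Fin n) (j : ℕ) (h : j < 3), q i j = p ⟨3 * i + j, hlt i j h⟩ := by
    intro i j h
    simp only [hq, dif_pos h]
  have q_inj : ∀ (i i' : Fin n) (j j' : ℕ), j < 3 → j' < 3 → q i j = q i' j' → i = i' ∧ j = j' := by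
    intro i i' j j' h h' e
    rw [q_eq i j h, q_eq i' j' h'] at e
    have e1 := congrArg Fin.val (hinj e)
    simp only at e1
    constructor
    · apply Fin.ext
      omega
    · omega
  set F : Fin n → Finset (ℝ × ℝ) := fun i => {q i 0, q i 1, q i 2} with hF
  have F_mem : ∀ (i : Fin n) (x : ℝ × ℝ), x ∈ F i ↔ ∃ j < 3, q i j = x := by
    intro i x
    simp only [hF, Finset.mem_insert, Finset.mem_singleton]
    constructor
    · rintro (h | h | h)
      · exact ⟨0, by omega, h.symm⟩
      · exact ⟨1, by omega, h.symm⟩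
      · exact ⟨2, by omega, h.symm⟩
    · rintro ⟨j, hj, h⟩
      interval_cases j
      · exact Or.inl h.symm
      · exact Or.inr (Or.inl h.symm)
      · exact Or.inr (Or.inr h.symm)
  have F_card : ∀ i, (F i).card = 3 := by
    intro i
    rw [hF, Finset.card_eq_three]
    refine ⟨q i 0, q i 1, q i 2, ?_, ?_, ?_, rfl⟩
    · intro e
      have := (q_inj i i 0 1 (by omega) (by omega) e).2
      omega
    · intro e
      have := (q_inj i i 0 2 (by omega) (by omega) e).2
      omega
    · intro e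
      have := (q_inj i i 1 2 (by omega) (by omega) e).2
      omega
  have hmain : ∀ i i' : Fin n, i < i' → Disjoint (interior (convexHull ℝ (F i : Set (ℝ × ℝ))))
      (interior (convexHull ℝ (F i' : Set (ℝ × ℝ)))) := by
    intro i i' hii
    rw [Set.disjoint_left]
    intro z hz hz'
    have h1 : z.1 < (q i 2).1 := by
      refine interior_right _ _ (fun w hw => ?_) z hz
      rw [Finset.mem_coe, F_mem] at hw
      obtain ⟨j, hj, rfl⟩ := hw
      rw [q_eq i j hj, q_eq i 2 (by omega)]
      apply hmono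
      rw [Fin.le_def]
      simp only
      omega
    have h2 : (q i' 0).1 < z.1 := by
      refine interior_left _ _ (fun w hw => ?_) z hz'
      rw [Finset.mem_coe, F_mem] at hw
      obtain ⟨j, hj, rfl⟩ := hw
      rw [q_eq i' j hj, q_eq i' 0 (by omega)]
      apply hmono
      rw [Fin.le_def]
      simp only
      omega
    have h3 : (q i 2).1 ≤ (q i' 0).1 := by
      rw [q_eq i 2 (by omega), q_eq i' 0 (by omega)]
      apply hmono
      rw [Fin.le_def]
      simp only
      have : (i : ℕ) < i' := hii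
      omega
    linarith
  refine ⟨Finset.univ.image F, ⟨?_, ?_, ?_⟩, ?_⟩
  · intro T hT
    obtain ⟨i, -, rfl⟩ := Finset.mem_image.1 hT
    exact F_card i
  · intro T hT T' hT' hne
    obtain ⟨i, -, rfl⟩ := Finset.mem_image.1 hT
    obtain ⟨i', -, rfl⟩ := Finset.mem_image.1 hT'
    rw [Finset.disjoint_left]
    intro x hx hx'
    rw [F_mem] at hx hx'
    obtain ⟨j, hj, e⟩ := hx
    obtain ⟨j', hj', e'⟩ := hx'
    have := (q_inj i i' j j' hj hj' (e.trans e'.symm)).1
    exact hne (by rw [this])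
  · intro x
    rw [hmem x]
    constructor
    · rintro ⟨k, rfl⟩
      have hk := k.isLt
      refine ⟨F ⟨(k : ℕ) / 3, by omega⟩, Finset.mem_image_of_mem _ (Finset.mem_univ _), ?_⟩
      rw [F_mem]
      refine ⟨(k : ℕ) % 3, Nat.mod_lt _ (by omega), ?_⟩
      rw [q_eq _ _ (Nat.mod_lt _ (by omega))]
      congr 1
      apply Fin.ext
      simp only
      omega
    · rintro ⟨T, hT, hx⟩
      obtain ⟨i, -, rfl⟩ := Finset.mem_image.1 hT
      rw [F_mem] at hx
      obtain ⟨j, hj, rfl⟩ := hx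
      exact ⟨_, (q_eq i j hj).symm⟩
  · intro T hT T' hT' hne
    obtain ⟨i, -, rfl⟩ := Finset.mem_image.1 hT
    obtain ⟨i', -, rfl⟩ := Finset.mem_image.1 hT'
    rcases lt_trichotomy i i' with h | h | h
    · exact hmain i i' h
    · exact absurd (by rw [h]) hne
    · exact (hmain i' i h).symm

/-- a partition into triples, written with indices -/
theorem partition_index {n : ℕ} {pt : Fin (3 * n) → ℝ × ℝ} (hpt : Function.Injective pt)
    {P : Finset (ℝ × ℝ)} (hP : ∀ x, x ∈ P ↔ ∃ k, pt k = x) {C : Finset (Finset (ℝ × ℝ))}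
    (hC : IsTriples P C) : ∃ (σ : Fin (3 * n) ≃ Fin n × Fin 3) (e : Fin n ≃ C),
      ∀ i, ((e i : Finset (ℝ × ℝ)) : Set (ℝ × ℝ)) =
        {pt (σ.symm (i, 0)), pt (σ.symm (i, 1)), pt (σ.symm (i, 2))} := by
  classical
  obtain ⟨h3, hd, hu⟩ := hC
  have hcardP : P.card = 3 * n := by
    have h1 : P = Finset.univ.image pt := by
      ext x
      rw [hP x, Finset.mem_image]
      simp
    rw [h1, Finset.card_image_of_injective _ hpt, Finset.card_univ, Fintype.card_fin]
  have hcardC : C.card = n := by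
    have h1 : P = C.biUnion id := by
      ext x
      rw [hu x, Finset.mem_biUnion]
      simp
    have h2 : (C.biUnion id).card = ∑ T ∈ C, T.card := by
      rw [Finset.card_biUnion]
      · rfl
      · intro T hT T' hT' hne
        exact hd T hT T' hT' hne
    rw [h1, h2, Finset.sum_congr rfl h3, Finset.sum_const, smul_eq_mul] at hcardP
    omega
  set e : Fin n ≃ C := (Finset.equivFinOfCardEq hcardC).symm with he
  have hT3 : ∀ i, Nonempty (Fin 3 ≃ (e i : Finset (ℝ × ℝ))) := by
    intro i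
    exact ⟨(Finset.equivFinOfCardEq (h3 _ (e i).2)).symm⟩
  choose g hg using fun i => (⟨(hT3 i).some, trivial⟩ : ∃ _ : Fin 3 ≃ (e i : Finset (ℝ × ℝ)), True)
  have hk : ∀ (i : Fin n) (j : Fin 3), ∃ k, pt k = (g i j : ℝ × ℝ) := by
    intro i j
    exact (hP _).1 ((hu _).2 ⟨e i, (e i).2, (g i j).2⟩)
  choose t ht using hk
  have tinj : Function.Injective (fun s : Fin n × Fin 3 => t s.1 s.2) := by
    rintro ⟨i, j⟩ ⟨i', j'⟩ h
    simp only at h
    have h1 : (g i j : ℝ × ℝ) = (g i' j' : ℝ × ℝ) := by rw [← ht i j, ← ht i' j', h]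
    have hii : i = i' := by
      by_contra hne
      have h2 : (e i : Finset (ℝ × ℝ)) ≠ e i' := fun h => hne (e.injective (Subtype.ext h))
      have h4 := hd _ (e i).2 _ (e i').2 h2
      rw [Finset.disjoint_left] at h4
      apply h4 (g i j).2
      rw [h1]
      exact (g i' j').2
    subst hii
    have h5 : g i j = g i j' := Subtype.ext h1
    rw [(g i).injective h5]
  have tbij : Function.Bijective (fun s : Fin n × Fin 3 => t s.1 s.2) := by
    rw [Fintype.bijective_iff_injective_and_card]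
    refine ⟨tinj, ?_⟩
    simp only [Fintype.card_prod, Fintype.card_fin]
    ring
  refine ⟨(Equiv.ofBijective _ tbij).symm, e, fun i => ?_⟩
  simp only [Equiv.symm_symm, Equiv.ofBijective_apply]
  rw [ht i 0, ht i 1, ht i 2]
  ext x
  simp only [Finset.mem_coe, mem_insert_iff, mem_singleton_iff]
  constructor
  · intro hx
    obtain ⟨j, hj⟩ := (g i).surjective ⟨x, hx⟩
    have hj' : (g i j : ℝ × ℝ) = x := by rw [hj]
    fin_cases j
    · exact Or.inl hj'.symm
    · exact Or.inr (Or.inl hj'.symm)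
    · exact Or.inr (Or.inr hj'.symm)
  · rintro (h | h | h) <;> rw [h] <;> exact (g i _).2

end Pool.Agent.Lib_helper35.INS
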